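import Mathlib

/-! Selfridge's square-product question: every non-square `n` is good, except possibly
`n = 2 b ^ 2` with `2 (2 b + 1) ^ 2 - 1` a perfect square. -/

namespace Pool.Agent.Results.MP_5c5acc_nt.AllButPell

/-- `m` is covered by an approximation `x / y` of `√a`. -/
def Cov (a m : ℤ) : Prop :=
  ∃ x y k : ℤ, 0 < x ∧ 0 < y ∧ 0 < k ∧ (x ^ 2 - a * y ^ 2 = k ∨ x ^ 2 - a * y ^ 2 = -k) ∧
    (k * m - (x ^ 2 + a * y ^ 2)) ^ 2 < 4 * (x * y) ^ 2 * (a - k)

/-- A state of the continued fraction expansion of `√a`. -/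
def St (a r x₀ y₀ x y P k k₀ : ℤ) : Prop :=
  0 < x₀ ∧ 0 ≤ y₀ ∧ 0 < x ∧ 0 < y ∧ 0 < k ∧ 0 < k₀ ∧
    (x ^ 2 - a * y ^ 2 = k ∨ x ^ 2 - a * y ^ 2 = -k) ∧ a * y - P * x = k * x₀ ∧
    x - P * y = k * y₀ ∧ k * k₀ = a - P ^ 2 ∧ P ≤ r ∧ k ≤ r + P

theorem good {a b : ℤ} (ha : 0 < a) (hb : 0 < b) (h : Cov a (2 * b + 1)) :
    ∃ u x y : ℤ, x ^ 2 ≠ a * y ^ 2 ∧ b ^ 2 < u * y ^ 2 ∧ u * y ^ 2 < (b + 1) ^ 2 ∧
      a * b ^ 2 < u * x ^ 2 ∧ u * x ^ 2 < a * (b + 1) ^ 2 := by
  obtain ⟨x, y, k, hx, hy, hk, hs, h⟩ := h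
  have hy2 : 0 < y ^ 2 := by positivity
  have hx2 : 0 < x ^ 2 := by positivity
  rcases hs with hs | hs
  · have e : x ^ 2 = a * y ^ 2 + k := by linarith
    have h1 : (b ^ 2 + y ^ 2) * x ^ 2 < a * (b + 1) ^ 2 * y ^ 2 := by
      refine lt_of_mul_lt_mul_left (a := 4 * k) ?_ (by positivity)
      rw [mul_pow, e] at h
      rw [e]
      nlinarith
    have t1 := Int.lt_ediv_add_one_mul_self (b ^ 2) hy2
    have t2 := Int.ediv_mul_le (b ^ 2) hy2.ne'
    set u := b ^ 2 / y ^ 2 + 1 with hu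
    have hu0 : 0 < u := by by_contra h0; nlinarith [sq_nonneg b]
    have t3 : u * y ^ 2 ≤ b ^ 2 + y ^ 2 := by rw [hu]; linarith
    have t4 : u * x ^ 2 < a * (b + 1) ^ 2 := by
      refine lt_of_mul_lt_mul_right (a := y ^ 2) ?_ hy2.le
      nlinarith
    have t5 : a * (u * y ^ 2) < u * x ^ 2 := by rw [e]; nlinarith
    refine ⟨u, x, y, by linarith, t1, ?_, by nlinarith, t4⟩
    exact lt_of_mul_lt_mul_left (t5.trans t4) ha.le
  · have e : x ^ 2 = a * y ^ 2 - k := by linarith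
    have h1 : a * b ^ 2 * y ^ 2 < ((b + 1) ^ 2 - y ^ 2) * x ^ 2 := by
      refine lt_of_mul_lt_mul_left (a := 4 * k) ?_ (by positivity)
      rw [mul_pow, e] at h
      rw [e]
      nlinarith
    have t1 := Int.lt_ediv_add_one_mul_self ((b + 1) ^ 2 - 1) hy2
    have t2 := Int.ediv_mul_le ((b + 1) ^ 2 - 1) hy2.ne'
    set u := ((b + 1) ^ 2 - 1) / y ^ 2 with hu
    have t3 : (b + 1) ^ 2 - y ^ 2 ≤ u * y ^ 2 := by linarith
    have t4 : a * b ^ 2 < u * x ^ 2 := by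
      refine lt_of_mul_lt_mul_right (a := y ^ 2) ?_ hy2.le
      nlinarith
    have hu0 : 0 < u := by
      by_contra h0
      have : 0 < a * b ^ 2 := by positivity
      nlinarith
    have t5 : u * x ^ 2 < a * (u * y ^ 2) := by rw [e]; nlinarith
    refine ⟨u, x, y, by linarith, ?_, by linarith, t4, by nlinarith⟩
    exact lt_of_mul_lt_mul_left (t4.trans t5) ha.le

theorem step {a r x₀ y₀ x y P k k₀ : ℤ} (h1 : r ^ 2 < a) (h2 : a < (r + 1) ^ 2) (hr : 0 < r)
    (h : St a r x₀ y₀ x y P k k₀) :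
    ∃ x' y' P' k', St a r x y x' y' P' k' k ∧ x * y₀ + y * x₀ < x' * y + y' * x ∧
      ∀ m, x * y₀ + y * x₀ < m → m ≤ x' * y + y' * x →
        Cov a m ∨ (a = 2 ∧ ∃ c : ℤ, c ^ 2 + 1 = 2 * m ^ 2) := by
  obtain ⟨hx₀, hy₀, hx, hy, hk, hk₀, hs, e1, e2, e3, b1, b2⟩ := h
  have t1 := Int.lt_ediv_add_one_mul_self (r + P) hk
  have t2 := Int.ediv_mul_le (r + P) hk.ne'
  generalize (r + P) / k = q at t1 t2
  have hq : 1 ≤ q := by by_contra h0; nlinarith only [h0, t1, b2, hk]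
  obtain ⟨P', hP⟩ : ∃ P', P' = q * k - P := ⟨_, rfl⟩
  obtain ⟨k', hk'⟩ : ∃ k', k' = k₀ - q * (q * k - 2 * P) := ⟨_, rfl⟩
  obtain ⟨x', hx'⟩ : ∃ x', x' = q * x + x₀ := ⟨_, rfl⟩
  obtain ⟨y', hy'⟩ : ∃ y', y' = q * y + y₀ := ⟨_, rfl⟩
  have f1 : k * x' = P' * x + a * y := by rw [hx', hP]; linear_combination -e1
  have f2 : k * y' = x + P' * y := by rw [hy', hP]; linear_combination -e2
  have f3 : k' * k = a - P' ^ 2 := by rw [hk', hP]; linear_combination e3
  have g1 : P' ≤ r := by linarith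
  have g2 : -r < P' := by nlinarith only [hP, hq, hk, b1]
  have g3 : r - P' < k := by linarith
  have g4 : 0 < k' := by
    have : 0 < k' * k := by nlinarith only [f3, g1, g2, h1]
    exact (pos_iff_pos_of_mul_pos this).2 hk
  have g5 : k' ≤ r + P' := by
    have : k' * k < (r + 1 + P') * k := by nlinarith only [f3, g1, g2, g3, h2]
    have := lt_of_mul_lt_mul_right this hk.le
    omega
  have p1 : 0 < x' := by rw [hx']; positivity
  have p2 : 0 < y' := by rw [hy']; positivity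
  have f4 : a * y' - P' * x' = k' * x :=
    mul_left_cancel₀ hk.ne' (by linear_combination a * f2 - P' * f1 - x * f3)
  have f5 : x' - P' * y' = k' * y :=
    mul_left_cancel₀ hk.ne' (by linear_combination f1 - P' * f2 - y * f3)
  have f6 : k * (x' ^ 2 - a * y' ^ 2) = -k' * (x ^ 2 - a * y ^ 2) :=
    mul_left_cancel₀ hk.ne' (by
      linear_combination (k * x' + (P' * x + a * y)) * f1 - a * (k * y' + (x + P' * y)) * f2 +
        (x ^ 2 - a * y ^ 2) * f3)
  have hs' : x' ^ 2 - a * y' ^ 2 = k' ∨ x' ^ 2 - a * y' ^ 2 = -k' := by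
    rcases hs with hs | hs
    · exact Or.inr (mul_left_cancel₀ hk.ne' (by rw [f6, hs]; ring))
    · exact Or.inl (mul_left_cancel₀ hk.ne' (by rw [f6, hs]; ring))
  have hT : 0 < x * y := by positivity
  have hT' : 0 < x' * y' := by positivity
  have l1 : k * (x * y₀ + y * x₀) = x ^ 2 + a * y ^ 2 - 2 * P * (x * y) := by
    linear_combination -x * e2 - y * e1
  have l2 : k * (x' * y + y' * x) = x ^ 2 + a * y ^ 2 + 2 * P' * (x * y) := by
    linear_combination y * f1 + x * f2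
  have l3 : k' * (x' * y + y' * x) = x' ^ 2 + a * y' ^ 2 - 2 * P' * (x' * y') := by
    linear_combination -x' * f5 - y' * f4
  refine ⟨x', y', P', k', ⟨hx, hy.le, p1, p2, g4, hk, hs', f4, f5, f3, g1, g5⟩, ?_,
    fun m m1 m2 => ?_⟩
  · rw [hx', hy']; nlinarith only [hq, hT]
  rcases m2.lt_or_eq with m2 | rfl
  · refine Or.inl ⟨x, y, k, hx, hy, hk, hs, ?_⟩
    have c1 : -(2 * P * (x * y)) < k * m - (x ^ 2 + a * y ^ 2) := by
      nlinarith only [l1, m1, hk]
    have c2 : k * m - (x ^ 2 + a * y ^ 2) < 2 * P' * (x * y) := by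
      nlinarith only [l2, m2, hk]
    have c3 : P ^ 2 ≤ a - k := by nlinarith only [e3, hk, hk₀]
    have c4 : P' ^ 2 ≤ a - k := by nlinarith only [f3, hk, g4]
    generalize k * m - (x ^ 2 + a * y ^ 2) = D at c1 c2
    generalize x * y = T at c1 c2 hT
    have hT2 : 0 < T ^ 2 := by positivity
    rcases le_total 0 D with h0 | h0
    · have : D ^ 2 < (2 * P' * T) ^ 2 := by nlinarith only [h0, c2]
      nlinarith only [this, c4, hT2]
    · have : D ^ 2 < (2 * P * T) ^ 2 := by nlinarith only [h0, c1]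
      nlinarith only [this, c3, hT2]
  by_cases c1 : 1 < k'
  · refine Or.inl ⟨x, y, k, hx, hy, hk, hs, ?_⟩
    have c4 : P' ^ 2 < a - k := by nlinarith only [f3, hk, c1]
    rw [l2]
    have hT2 : 0 < (x * y) ^ 2 := by positivity
    nlinarith only [c4, hT2]
  by_cases c2 : 1 < k
  · refine Or.inl ⟨x', y', k', p1, p2, g4, hs', ?_⟩
    have c4 : P' ^ 2 < a - k' := by nlinarith only [f3, g4, c2]
    rw [l3]
    have hT2 : 0 < (x' * y') ^ 2 := by positivity
    nlinarith only [c4, hT2]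
  obtain rfl : k = 1 := by omega
  obtain rfl : k' = 1 := by omega
  have ha : a = P' ^ 2 + 1 := by linarith
  simp only [one_mul] at f1 f2 l2
  by_cases c3 : P' = 1
  · subst c3
    refine Or.inr ⟨by rw [ha]; norm_num, x ^ 2 + 2 * y ^ 2 + 4 * (x * y), ?_⟩
    rw [l2]
    have ha2 : a = 2 := by rw [ha]; norm_num
    rw [ha2] at hs ⊢
    rcases hs with hs | hs
    · linear_combination (-(x ^ 2 - 2 * y ^ 2) - 1) * hs
    · linear_combination (-(x ^ 2 - 2 * y ^ 2) + 1) * hs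
  · obtain ⟨j, rfl⟩ : ∃ j, P' = j + 1 := ⟨P' - 1, by ring⟩
    have hj : 1 ≤ j := by omega
    have ha0 : 0 < a := by rw [ha]; positivity
    have q1 : 0 < j * x + a * y := by positivity
    have q2 : 0 < x + j * y := by positivity
    refine Or.inl ⟨j * x + a * y, x + j * y, 2 * (j + 1), q1, q2, by positivity, ?_, ?_⟩
    · rcases hs with hs | hs
      · right; rw [ha] at hs ⊢; linear_combination (-2 * (j + 1)) * hs
      · left; rw [ha] at hs ⊢; linear_combination (-2 * (j + 1)) * hs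
    · rw [l2]
      have d1 : 2 * (j + 1) * (x ^ 2 + a * y ^ 2 + 2 * (j + 1) * (x * y)) -
          ((j * x + a * y) ^ 2 + a * (x + j * y) ^ 2) =
          4 * (j + 1) * (x * y) - 2 * j * ((j * x + a * y) * (x + j * y)) := by
        rw [ha]; ring
      have d2 : a - 2 * (j + 1) = j ^ 2 := by rw [ha]; ring
      have d3 : (j + 1) * (x * y) < j * ((j * x + a * y) * (x + j * y)) := by
        have u1 : 2 * (x * y) < (j * x + a * y) * (x + j * y) := by
          have v1 : 0 < j * x ^ 2 := by positivity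
          have v2 : 0 < j * a * y ^ 2 := by positivity
          have v3 : 0 < j ^ 2 * (x * y) := by positivity
          have v4 : 2 ≤ a := by rw [ha]; nlinarith only [hj]
          have v5 := mul_le_mul_of_nonneg_right v4 hT.le
          have v6 : (j * x + a * y) * (x + j * y) =
            j * x ^ 2 + j * a * y ^ 2 + j ^ 2 * (x * y) + a * (x * y) := by ring
          linarith only [v1, v2, v3, v5, v6]
        have u2 := mul_lt_mul_of_pos_left u1 (show 0 < j by omega)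
        have u3 := mul_le_mul_of_nonneg_right hj hT.le
        linarith only [u2, u3]
      rw [d1, d2]
      generalize (j * x + a * y) * (x + j * y) = W at d3
      have u4 : 0 < (j + 1) * (x * y) := by positivity
      have u5 := mul_pos u4 (sub_pos.2 d3)
      linarith only [u5]

theorem cover {a r : ℤ} (h1 : r ^ 2 < a) (h2 : a < (r + 1) ^ 2) (hr : 0 < r) (N : ℕ) :
    ∃ x₀ y₀ x y P k k₀, St a r x₀ y₀ x y P k k₀ ∧ (N : ℤ) ≤ x * y₀ + y * x₀ ∧
      ∀ m, 1 < m → m ≤ x * y₀ + y * x₀ → Cov a m ∨ (a = 2 ∧ ∃ c : ℤ, c ^ 2 + 1 = 2 * m ^ 2) := by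
  induction N with
  | zero =>
    refine ⟨1, 0, r, 1, r, a - r ^ 2, 1, ⟨by norm_num, le_rfl, hr, by norm_num, by linarith,
      by norm_num, Or.inr (by ring), by ring, by ring, by ring, le_rfl, by nlinarith⟩,
      by norm_num, fun m m1 m2 => ?_⟩
    omega
  | succ N ih =>
    obtain ⟨x₀, y₀, x, y, P, k, k₀, hS, hN, hc⟩ := ih
    obtain ⟨x', y', P', k', hS', hl, hc'⟩ := step h1 h2 hr hS
    refine ⟨x, y, x', y', P', k', k, hS', by push_cast; omega, fun m m1 m2 => ?_⟩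
    by_cases h : m ≤ x * y₀ + y * x₀
    · exact hc m m1 h
    · exact hc' m (not_le.1 h) m2

theorem result (n t : ℕ) (hn : ¬ IsSquare n)
    (hex : ¬ ∃ b c : ℕ, n = 2 * b ^ 2 ∧ c ^ 2 + 1 = 2 * (2 * b + 1) ^ 2)
    (ht : IsLeast {t : ℕ | n < t ∧ IsSquare (n * t)} t) :
    ∃ r s : ℕ, n < r ∧ r < s ∧ s < t ∧ IsSquare (n * r * s) := by
  obtain ⟨a, b, hab, hsq⟩ := Nat.sq_mul_squarefree n
  have hb : 0 < b := Nat.pos_of_ne_zero fun h => hn (by rw [← hab, h]; simp)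
  have ha : ¬ IsSquare a := fun ⟨c, hc⟩ => hn ⟨b * c, by rw [← hab, hc]; ring⟩
  have ha0 : 0 < a := Nat.pos_of_ne_zero fun h => ha (by rw [h]; simp)
  obtain ⟨⟨hlt, w, hw⟩, -⟩ := ht
  have ht2 : a * (b + 1) ^ 2 ≤ t := by
    have d1 : b ∣ w := by
      rw [← Nat.pow_dvd_pow_iff (n := 2) (by norm_num)]
      exact ⟨a * t, by rw [pow_two w, ← hw, ← hab]; ring⟩
    obtain ⟨v, rfl⟩ := d1
    have d2 : a * t = v ^ 2 := by
      refine mul_left_cancel₀ (pow_pos hb 2).ne' ?_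
      rw [← hab] at hw
      linear_combination hw
    obtain ⟨c, rfl⟩ : a ∣ v := (hsq.dvd_pow_iff_dvd (n := 2) (by norm_num)).1 ⟨t, d2.symm⟩
    have d3 : t = a * c ^ 2 := mul_left_cancel₀ ha0.ne' (by rw [d2]; ring)
    rw [d3, ← hab, mul_comm] at hlt
    have d4 : b < c := lt_of_pow_lt_pow_left₀ 2 (Nat.zero_le _) (lt_of_mul_lt_mul_left hlt ha0.le)
    rw [d3]
    exact Nat.mul_le_mul_left _ (Nat.pow_le_pow_left d4 2)
  have s1 : Nat.sqrt a ^ 2 < a := lt_of_le_of_ne (Nat.sqrt_le' a) fun h => ha ⟨_, by rw [← h, sq]⟩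
  have s2 := Nat.lt_succ_sqrt' a
  have s3 : 0 < Nat.sqrt a := Nat.sqrt_pos.2 ha0
  obtain ⟨x₀, y₀, x, y, P, k, k₀, -, hN, hc⟩ := cover (a := a) (r := Nat.sqrt a)
    (by exact_mod_cast s1) (by exact_mod_cast s2) (by exact_mod_cast s3) (2 * b + 1)
  rcases hc (2 * b + 1) (by omega) (by push_cast at hN; exact hN) with h | ⟨h, c, hc⟩
  · obtain ⟨u, x, y, g0, g1, g2, g3, g4⟩ :=
      good (a := a) (b := b) (by exact_mod_cast ha0) (by exact_mod_cast hb) h
    have ha1 : (0 : ℤ) < a := by exact_mod_cast ha0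
    have hu : 0 < u := by by_contra h0; nlinarith [sq_nonneg (b : ℤ), sq_nonneg y]
    lift u to ℕ using hu.le
    have hu' : u ≠ 0 := by omega
    rw [← Int.natAbs_sq x, ← Int.natAbs_sq y] at *
    generalize x.natAbs = X at *
    generalize y.natAbs = Y at *
    have k0 : X ^ 2 ≠ a * Y ^ 2 := by exact_mod_cast g0
    have k1 : b ^ 2 < u * Y ^ 2 := by exact_mod_cast g1
    have k2 : u * Y ^ 2 < (b + 1) ^ 2 := by exact_mod_cast g2
    have k3 : a * b ^ 2 < u * X ^ 2 := by exact_mod_cast g3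
    have k4 : u * X ^ 2 < a * (b + 1) ^ 2 := by exact_mod_cast g4
    have k5 := mul_lt_mul_of_pos_left k1 ha0
    have k6 := mul_lt_mul_of_pos_left k2 ha0
    have hne : u * X ^ 2 ≠ a * (u * Y ^ 2) := fun h =>
      k0 (mul_left_cancel₀ hu' (by rw [h]; ring))
    rcases lt_or_gt_of_ne hne with h | h
    · exact ⟨_, _, by rw [← hab, mul_comm]; exact k3, h, by omega,
        ⟨a * b * u * X * Y, by rw [← hab]; ring⟩⟩
    · exact ⟨_, _, by rw [← hab, mul_comm]; exact k5, h, by omega,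
        ⟨a * b * u * X * Y, by rw [← hab]; ring⟩⟩
  · refine absurd ⟨b, c.natAbs, ?_, ?_⟩ hex
    · have : a = 2 := by exact_mod_cast h
      rw [← hab, this, mul_comm]
    · rw [← Int.natAbs_sq c] at hc
      exact_mod_cast hc

end Pool.Agent.Results.MP_5c5acc_nt.AllButPell
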